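import Pool.Agent.R858.SS.FreeChain

/-!
# MP_761c50_ag: an inductively free arrangement whose third symbolic power is not in the square

The containment `J(A)^(2r-1) ⊆ J(A)^r` fails for `r = 2` for the inductively free arrangement `A`
of the twelve planes in `ℂ³`

`z, x - z, x + z, y - z, y + z` (product `C`) and
`x, y, x - y, x + y` and `y - 2x, y + 2x, y - 3x` (product of the last three: `E`).

Exponents: let `P` be the product of some of the forms `y, x - y, x + y, y - 2x, y + 2x, y - 3x` and
`C'` the product of some of the five factors of `C`. The planes `x` and `P` have the basis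
`x ∂x + y ∂y + z ∂z, P ∂y, ∂z`; all seven planes through the line `x = y = 0` together with `C'` have
the basis `x ∂x + y ∂y + z ∂z, E (y (x² - y²) ∂y + z (x² - z²) ∂z), C' ∂z`, and the restriction
of the arrangement to a factor of `C` consists of seven lines. So one can add the planes one after
the other, starting with `x`; the exponents of `A` are `1, 6, 5`.

Put `m₁ = yz(y² - z²)`, `m₂ = xz(x² - z²)`, `m₃ = xy(x² - y²)` and `F = C E F'` with
`F' = E ((x² - y²)² + z² (x² + y² - 2 z²)) + 3 z (12 x + y) C`. Then `F` is in `J(A)^(3)`. Every
element of `J(A)` is in `(C) + E (m₁, m₂, m₃)`, and `F` is not in the square of this ideal.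
-/

namespace Pool.Agent.Results.MP_761c50_ag.TwelvePlanes

open R858SS

theorem result : ∃ A : Finset (Submodule ℂ (Fin 3 → ℂ)),
    IsArrangement A ∧ A.card = 12 ∧ InductivelyFree 3 A ∧
      ¬ symbolicPower A (2 * 2 - 1) ≤ J A ^ 2 :=
  ⟨A12, isArr, card_A12, indFree_A12, not_le⟩

end Pool.Agent.Results.MP_761c50_ag.TwelvePlanes
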